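import Pool.Agent.Helper16.CE.Defs

set_option autoImplicit false

namespace Pool.Agent.Helper61.CE
open MeasureTheory Pool.Agent.Helper16.CE
open scoped ENNReal

/-- `δ(E)`, the distance from `E` to the half-line `[0,∞)` -/
noncomputable def delta (E : ℂ) : ℝ := Metric.infDist E {z : ℂ | 0 ≤ z.re ∧ z.im = 0}

/-- the parameter `ζ` of a point `b` of the disc -/
noncomputable def zt (b : ℂ) : ℂ := Complex.I * (1 + b) / (1 - b)

theorem one_sub_ne (b : ℂ) (hb : ‖b‖ < 1) : (1 : ℂ) - b ≠ 0 := by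
  intro h
  have : b = 1 := by linear_combination -h
  rw [this] at hb
  simp at hb

theorem normSq_pos_of (b : ℂ) (hb : ‖b‖ < 1) : 0 < Complex.normSq (1 - b) :=
  Complex.normSq_pos.mpr (one_sub_ne b hb)

theorem zt_im (b : ℂ) (hb : ‖b‖ < 1) :
    (zt b).im = (1 - Complex.normSq b) / Complex.normSq (1 - b) := by
  unfold zt
  have h := normSq_pos_of b hb
  rw [Complex.div_im]
  rw [Complex.normSq_apply] at h ⊢
  simp only [Complex.mul_re, Complex.mul_im, Complex.I_re, Complex.I_im, Complex.add_re,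
    Complex.add_im, Complex.one_re, Complex.one_im, Complex.sub_re, Complex.sub_im,
    Complex.normSq_apply] at h ⊢
  field_simp
  ring

theorem zt_re (b : ℂ) (hb : ‖b‖ < 1) :
    (zt b).re = (- 2 * b.im) / Complex.normSq (1 - b) := by
  unfold zt
  have h := normSq_pos_of b hb
  rw [Complex.div_re]
  rw [Complex.normSq_apply] at h ⊢
  simp only [Complex.mul_re, Complex.mul_im, Complex.I_re, Complex.I_im, Complex.add_re,
    Complex.add_im, Complex.one_re, Complex.one_im, Complex.sub_re, Complex.sub_im] at h ⊢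
  field_simp
  ring

theorem zt_im_pos (b : ℂ) (hb : ‖b‖ < 1) : 0 < (zt b).im := by
  rw [zt_im b hb]
  apply div_pos _ (normSq_pos_of b hb)
  rw [Complex.normSq_eq_norm_sq]
  nlinarith [norm_nonneg b]

theorem zt_bounds (N : ℕ) (hN : 1 ≤ N) (b : ℂ) (hb : ‖b‖ < 1 - 1 / (2 * (N : ℝ))) :
    0 < (zt b).im ∧ ‖zt b‖ ≤ 4 * N ∧ Real.exp (-4) ≤ ‖Complex.exp (Complex.I * zt b / N)‖ ∧
    (1 / (4 * (N : ℝ))) ^ 5 ≤ ‖((1 + b) / 2) ^ 5‖ ∧ DifferentiableAt ℂ zt b := by
  have hN' : (1 : ℝ) ≤ N := by exact_mod_cast hN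
  have hNp : (0 : ℝ) < N := by linarith
  have h2N : 0 < 1 / (2 * (N : ℝ)) := by positivity
  have hb1 : ‖b‖ < 1 := by linarith
  have hsub : 1 / (2 * (N : ℝ)) ≤ ‖1 - b‖ := by
    have := norm_sub_norm_le (1 : ℂ) b
    rw [norm_one] at this
    linarith
  have hadd : 1 / (2 * (N : ℝ)) ≤ ‖1 + b‖ := by
    have := norm_sub_norm_le (1 : ℂ) (-b)
    rw [norm_one, norm_neg, sub_neg_eq_add] at this
    linarith
  have hadd2 : ‖1 + b‖ ≤ 2 := by
    have := norm_add_le (1 : ℂ) b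
    rw [norm_one] at this
    linarith
  have hz : ‖zt b‖ ≤ 4 * N := by
    unfold zt
    rw [norm_div, norm_mul, Complex.norm_I, one_mul, div_le_iff₀ (by linarith)]
    have : 4 * (N : ℝ) * (1 / (2 * (N : ℝ))) = 2 := by field_simp; norm_num
    have h3 : 4 * (N : ℝ) * (1 / (2 * (N : ℝ))) ≤ 4 * N * ‖1 - b‖ :=
      mul_le_mul_of_nonneg_left hsub (by positivity)
    linarith
  refine ⟨zt_im_pos b hb1, hz, ?_, ?_, ?_⟩
  · rw [Complex.norm_exp]
    apply Real.exp_le_exp.mpr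
    have h1 : |(Complex.I * zt b / N).re| ≤ ‖Complex.I * zt b / N‖ := Complex.abs_re_le_norm _
    rw [norm_div, norm_mul, Complex.norm_I, one_mul, Complex.norm_natCast] at h1
    have h2 : ‖zt b‖ / N ≤ 4 := by
      rw [div_le_iff₀ hNp]; exact hz
    have h3 := (abs_le.mp (h1.trans h2)).1
    exact h3
  · rw [norm_pow]
    apply pow_le_pow_left₀ (by positivity)
    rw [norm_div]
    simp only [Complex.norm_ofNat]
    have : 1 / (4 * (N : ℝ)) = 1 / (2 * (N : ℝ)) / 2 := by field_simp; norm_num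
    rw [this]
    exact div_le_div_of_nonneg_right hadd (by norm_num)
  · unfold zt
    apply DifferentiableAt.div
    · fun_prop
    · fun_prop
    · exact one_sub_ne b hb1

theorem zt_ne (b : ℂ) (hb : ‖b‖ < 1) : zt b ≠ 0 := by
  intro h
  have := zt_im_pos b hb
  rw [h] at this
  simp at this

theorem zt_inj (b c : ℂ) (hb : ‖b‖ < 1) (hc : ‖c‖ < 1) (h : zt b = zt c) : b = c := by
  unfold zt at h
  rw [div_eq_div_iff (one_sub_ne b hb) (one_sub_ne c hc)] at h
  have hI : Complex.I ≠ 0 := Complex.I_ne_zero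
  have h2 : Complex.I * (2 * (b - c)) = 0 := by linear_combination h
  rcases mul_eq_zero.mp h2 with h3 | h3
  · exact absurd h3 hI
  · have : b - c = 0 := by
      rcases mul_eq_zero.mp h3 with h4 | h4
      · norm_num at h4
      · exact h4
    linear_combination this

theorem sq_inj (z w : ℂ) (hz : 0 < z.im) (hw : 0 < w.im) (h : z ^ 2 = w ^ 2) : z = w := by
  rcases sq_eq_sq_iff_eq_or_eq_neg.mp h with h1 | h1
  · exact h1
  · exfalso
    rw [h1] at hz
    simp at hz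
    linarith

theorem nodes (N : ℕ) (hN : 1 ≤ N) (Λ : ℝ) (hΛ : 1 ≤ Λ) :
    ∃ s : Finset ℂ, s.card = N ∧ ∀ E ∈ s, ∃ b : ℂ, b ^ N = (1 / 10 : ℂ) ^ N ∧ ‖b‖ = 1 / 10 ∧
      E = (zt b / (2 * Λ)) ^ 2 ∧ E.re ≤ 0 ∧ 1 / (10 * Λ ^ 2) ≤ ‖E‖ := by
  classical
  have hΛ0 : (0 : ℝ) < Λ := by linarith
  have hN0 : N ≠ 0 := by omega
  have hprim := Complex.isPrimitiveRoot_exp N hN0
  set w : ℂ := Complex.exp (2 * Real.pi * Complex.I / N) with hw
  have hwn : ‖w‖ = 1 := hprim.norm'_eq_one hN0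
  set bb : ℕ → ℂ := fun j => 1 / 10 * w ^ j with hbb
  have hbn : ∀ j, ‖bb j‖ = 1 / 10 := by
    intro j
    simp only [hbb]
    rw [norm_mul, norm_pow, hwn, one_pow, mul_one]
    simp
  have hbn1 : ∀ j, ‖bb j‖ < 1 := fun j => by rw [hbn j]; norm_num
  set EE : ℕ → ℂ := fun j => (zt (bb j) / (2 * Λ)) ^ 2 with hEE
  have hz : ∀ j, 0 < (zt (bb j) / (2 * Λ)).im := by
    intro j
    have : (zt (bb j) / (2 * (Λ : ℂ))) = zt (bb j) / ((2 * Λ : ℝ) : ℂ) := by push_cast; rfl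
    rw [this, Complex.div_ofReal_im]
    exact div_pos (zt_im_pos _ (hbn1 j)) (by positivity)
  have hinj : Set.InjOn EE (Finset.range N : Set ℕ) := by
    intro i hi j hj hij
    have h1 := sq_inj _ _ (hz i) (hz j) hij
    have h2Λ : (2 * (Λ : ℂ)) ≠ 0 := by
      have : (Λ : ℂ) ≠ 0 := by exact_mod_cast hΛ0.ne'
      exact mul_ne_zero two_ne_zero this
    have h2 : zt (bb i) = zt (bb j) := (div_left_inj' h2Λ).mp h1
    have h3 := zt_inj _ _ (hbn1 i) (hbn1 j) h2
    have h4 : w ^ i = w ^ j := by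
      simp only [hbb] at h3
      exact mul_left_cancel₀ (by norm_num) h3
    exact hprim.pow_inj (Finset.mem_range.mp (Finset.mem_coe.mp hi))
      (Finset.mem_range.mp (Finset.mem_coe.mp hj)) h4
  refine ⟨(Finset.range N).image EE, ?_, ?_⟩
  · rw [Finset.card_image_of_injOn hinj, Finset.card_range]
  · intro E hE
    obtain ⟨j, hj, rfl⟩ := Finset.mem_image.mp hE
    refine ⟨bb j, ?_, hbn j, rfl, ?_, ?_⟩
    · simp only [hbb]
      rw [mul_pow, ← pow_mul, mul_comm j N, pow_mul, hprim.pow_eq_one, one_pow, mul_one]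
    · simp only [hEE]
      have h1 : (zt (bb j) / (2 * (Λ : ℂ))) = zt (bb j) / ((2 * Λ : ℝ) : ℂ) := by push_cast; rfl
      rw [h1]
      rw [pow_two, Complex.mul_re, Complex.div_ofReal_re, Complex.div_ofReal_im,
        zt_re _ (hbn1 j), zt_im _ (hbn1 j)]
      have hn : Complex.normSq (bb j) = 1 / 100 := by
        rw [Complex.normSq_eq_norm_sq, hbn j]; norm_num
      rw [hn]
      have him : (bb j).im ^ 2 ≤ 1 / 100 := by
        have : (bb j).im ^ 2 ≤ Complex.normSq (bb j) := by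
          rw [Complex.normSq_apply]; nlinarith [mul_self_nonneg (bb j).re]
        linarith
      have hd := normSq_pos_of _ (hbn1 j)
      set D := Complex.normSq (1 - bb j) with hD
      have : -2 * (bb j).im / D / (2 * Λ) * (-2 * (bb j).im / D / (2 * Λ)) -
          (1 - 1 / 100) / D / (2 * Λ) * ((1 - 1 / 100) / D / (2 * Λ)) =
          (4 * (bb j).im ^ 2 - (99 / 100) ^ 2) / (D * (2 * Λ)) ^ 2 := by
        field_simp; ring
      rw [this]
      apply div_nonpos_of_nonpos_of_nonneg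
      · nlinarith
      · positivity
    · simp only [hEE]
      rw [norm_pow, norm_div]
      have h2 : ‖(2 * (Λ : ℂ))‖ = 2 * Λ := by
        rw [norm_mul, Complex.norm_real, Real.norm_of_nonneg hΛ0.le]; norm_num
      rw [h2]
      have hlow : 9 / 11 ≤ ‖zt (bb j)‖ := by
        unfold zt
        rw [norm_div, norm_mul, Complex.norm_I, one_mul]
        have ha : 9 / 10 ≤ ‖1 + bb j‖ := by
          have := norm_sub_norm_le (1 : ℂ) (-(bb j))
          rw [norm_one, norm_neg, sub_neg_eq_add, hbn j] at this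
          linarith
        have hb : ‖1 - bb j‖ ≤ 11 / 10 := by
          have := norm_sub_le (1 : ℂ) (bb j)
          rw [norm_one, hbn j] at this
          linarith
        rw [le_div_iff₀ (norm_pos_iff.mpr (one_sub_ne _ (hbn1 j)))]
        nlinarith
      rw [div_pow, div_le_div_iff₀ (by positivity) (by positivity)]
      have : (9 / 11 : ℝ) ^ 2 ≤ ‖zt (bb j)‖ ^ 2 := pow_le_pow_left₀ (by norm_num) hlow 2
      have hΛ2 : 0 < Λ ^ 2 := by positivity
      nlinarith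

/-! ## Part Co: the cost -/

theorem cost (V0 W : E3 → ℂ) (B m I : ℝ) (hV0m : Measurable V0) (hB : 1 ≤ B)
    (hV0 : ∀ x, ‖V0 x‖ ≤ B) (hV01 : ∀ x, 1 ≤ ‖x‖ → V0 x = 0)
    (hWm : Measurable W) (hm1 : m ≤ 1) (hW : ∀ x, ‖W x‖ ≤ m) (hWi : Integrable W volume)
    (hI : ∫ x, ‖W x‖ ≤ I) (hW1 : ∀ x, ‖x‖ < 1 → W x = 0) (hmI : Real.sqrt m * I ≤ 1)
    (p : ℝ) (hp : 3 / 2 ≤ p) (hp2 : p ≤ 5 / 2) :
    Integrable (fun x => ‖V0 x + W x‖ ^ p) volume ∧
      ∫ x, ‖V0 x + W x‖ ^ p ≤ 5 * B ^ (5 / 2 : ℝ) + 1 := by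
  have hp0 : 0 < p := by linarith
  have hm0 : 0 ≤ m := (norm_nonneg _).trans (hW 0)
  set G : E3 → ℝ := fun x =>
    (Metric.ball (0 : E3) 1).indicator (fun _ => B ^ (5 / 2 : ℝ)) x + Real.sqrt m * ‖W x‖ with hG
  have hvol : volume (Metric.ball (0 : E3) 1) ≠ ⊤ := measure_ball_lt_top.ne
  have hi1 : Integrable ((Metric.ball (0 : E3) 1).indicator
      (fun _ => (B ^ (5 / 2 : ℝ) : ℝ))) volume := by
    rw [integrable_indicator_iff measurableSet_ball]
    exact integrableOn_const hvol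
  have hi2 : Integrable (fun x => Real.sqrt m * ‖W x‖) volume := hWi.norm.const_mul _
  have hGi : Integrable G volume := hi1.add hi2
  have hpt : ∀ x, ‖V0 x + W x‖ ^ p ≤ G x := by
    intro x
    simp only [hG]
    by_cases hx : ‖x‖ < 1
    · rw [Set.indicator_of_mem (by simpa [Metric.mem_ball, dist_zero_right] using hx), hW1 x hx]
      simp only [add_zero, norm_zero, mul_zero]
      calc ‖V0 x‖ ^ p ≤ B ^ p := Real.rpow_le_rpow (norm_nonneg _) (hV0 x) hp0.le
        _ ≤ B ^ (5 / 2 : ℝ) := Real.rpow_le_rpow_of_exponent_le hB hp2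
    · rw [Set.indicator_of_notMem (by simpa [Metric.mem_ball, dist_zero_right] using hx),
        hV01 x (not_lt.mp hx), zero_add, zero_add]
      rcases eq_or_lt_of_le (norm_nonneg (W x)) with h0 | h0
      · rw [← h0, Real.zero_rpow hp0.ne', mul_zero]
      · have e1 : ‖W x‖ ^ p = ‖W x‖ ^ (p - 1) * ‖W x‖ := by
          nth_rewrite 3 [← Real.rpow_one ‖W x‖]
          rw [← Real.rpow_add h0]; congr 1; ring
        rw [e1]
        apply mul_le_mul_of_nonneg_right _ h0.le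
        have hW1' : ‖W x‖ ≤ 1 := (hW x).trans hm1
        calc ‖W x‖ ^ (p - 1) ≤ ‖W x‖ ^ (1 / 2 : ℝ) :=
              Real.rpow_le_rpow_of_exponent_ge h0 hW1' (by linarith)
          _ ≤ m ^ (1 / 2 : ℝ) := Real.rpow_le_rpow h0.le (hW x) (by norm_num)
          _ = Real.sqrt m := (Real.sqrt_eq_rpow m).symm
  have hmeas : Measurable (fun x => ‖V0 x + W x‖ ^ p) :=
    ((hV0m.add hWm).norm).pow_const p
  have hint : Integrable (fun x => ‖V0 x + W x‖ ^ p) volume := by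
    refine hGi.mono' hmeas.aestronglyMeasurable (Filter.Eventually.of_forall fun x => ?_)
    rw [Real.norm_of_nonneg (Real.rpow_nonneg (norm_nonneg _) _)]
    exact hpt x
  refine ⟨hint, ?_⟩
  calc ∫ x, ‖V0 x + W x‖ ^ p ≤ ∫ x, G x := integral_mono hint hGi hpt
    _ = (∫ x, (Metric.ball (0 : E3) 1).indicator (fun _ => (B ^ (5 / 2 : ℝ) : ℝ)) x) +
        ∫ x, Real.sqrt m * ‖W x‖ := integral_add hi1 hi2
    _ ≤ 5 * B ^ (5 / 2 : ℝ) + 1 := by
        have h1 : (∫ x, (Metric.ball (0 : E3) 1).indicator (fun _ => (B ^ (5 / 2 : ℝ) : ℝ)) x) ≤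
            5 * B ^ (5 / 2 : ℝ) := by
          rw [integral_indicator_const _ measurableSet_ball, smul_eq_mul]
          apply mul_le_mul_of_nonneg_right _ (Real.rpow_nonneg (by linarith) _)
          rw [Measure.real, EuclideanSpace.volume_ball_fin_three, ENNReal.ofReal_one, one_pow,
            one_mul, ENNReal.toReal_ofReal (by positivity)]
          have := Real.pi_lt_d2
          linarith
        have h2 : ∫ x, Real.sqrt m * ‖W x‖ ≤ 1 := by
          rw [integral_const_mul]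
          exact (mul_le_mul_of_nonneg_left hI (Real.sqrt_nonneg m)).trans hmI
        linarith

/-! ## Part En: the end game -/

theorem delta_eq (E : ℂ) (hE : E.re ≤ 0) : delta E = ‖E‖ := by
  unfold delta
  apply le_antisymm
  · have h0 : (0 : ℂ) ∈ {z : ℂ | 0 ≤ z.re ∧ z.im = 0} := by simp
    have := Metric.infDist_le_dist_of_mem (x := E) h0
    rwa [dist_zero_right] at this
  · have hne : {z : ℂ | 0 ≤ z.re ∧ z.im = 0}.Nonempty := ⟨0, by simp⟩
    rw [Metric.le_infDist hne]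
    intro z hz
    obtain ⟨h1, h2⟩ := hz
    rw [dist_eq_norm]
    have : Complex.normSq E ≤ Complex.normSq (E - z) := by
      rw [Complex.normSq_apply, Complex.normSq_apply]
      simp only [Complex.sub_re, Complex.sub_im, h2, sub_zero]
      nlinarith
    rw [Complex.normSq_eq_norm_sq, Complex.normSq_eq_norm_sq] at this
    exact (pow_le_pow_iff_left₀ (norm_nonneg _) (norm_nonneg _) two_ne_zero).mp this

theorem endgame (hkey : ∃ (C1 : ℝ) (M N0 : ℕ), ∀ N : ℕ, N0 ≤ N → ∃ V : E3 → ℂ, Measurable V ∧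
      (∃ B : ℝ, ∀ x, ‖V x‖ ≤ B) ∧ Integrable V volume ∧
      (∀ p : ℝ, 3 / 2 ≤ p → p ≤ 5 / 2 → Integrable (fun x => ‖V x‖ ^ p) volume ∧
        ∫ x, ‖V x‖ ^ p ≤ C1) ∧
      ∃ s : Finset ℂ, s.card = N ∧ ∀ E ∈ s, E.re ≤ 0 ∧ 1 / (10 * (N : ℝ) ^ (2 * M)) ≤ ‖E‖ ∧
        ∃ U : L2, U ≠ 0 ∧ IsHu V U (E • U)) :
    ∃ γ0 : ℝ, 0 < γ0 ∧ ∀ γ σ C : ℝ, 0 < γ → γ ≤ γ0 → ∃ V : E3 → ℂ, Measurable V ∧
      (∃ B : ℝ, ∀ x, ‖V x‖ ≤ B) ∧ Integrable V volume ∧
      MemLp V (ENNReal.ofReal (γ + 3 / 2)) volume ∧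
      ∃ s : Finset ℂ, (∀ E ∈ s, 0 < delta E ∧ ∃ U : L2, U ≠ 0 ∧ IsHu V U (E • U)) ∧
        C * ∫ x, ‖V x‖ ^ (γ + 3 / 2) < ∑ E ∈ s, ‖E‖ ^ (-σ) * delta E ^ (γ + σ) := by
  obtain ⟨C1, M, N0, h⟩ := hkey
  refine ⟨1 / (4 * (M + 1)), by positivity, ?_⟩
  intro γ σ C hγ hγ0
  have hM1 : (1 : ℝ) ≤ M + 1 := by
    have : (0 : ℝ) ≤ M := Nat.cast_nonneg M
    linarith
  have hγ1 : γ ≤ 1 := by
    refine hγ0.trans ?_
    rw [div_le_one (by positivity)]; linarith
  -- choice of `N`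
  obtain ⟨N1, hN1⟩ := exists_nat_gt ((10 * (|C| * |C1|)) ^ 2)
  set N : ℕ := max N0 (max N1 1) with hNdef
  have hNN0 : N0 ≤ N := le_max_left _ _
  have hNN1 : N1 ≤ N := (le_max_left _ _).trans (le_max_right _ _)
  have hN1' : 1 ≤ N := (le_max_right _ _).trans (le_max_right _ _)
  have hNr : (1 : ℝ) ≤ N := by exact_mod_cast hN1'
  have hNp : (0 : ℝ) < N := by linarith
  obtain ⟨V, hVm, hVb, hVi, hVp, s, hcard, hs⟩ := h N hNN0
  obtain ⟨hVp1, hVp2⟩ := hVp (γ + 3 / 2) (by linarith) (by linarith)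
  have hq : 0 < γ + 3 / 2 := by linarith
  refine ⟨V, hVm, hVb, hVi, ?_, s, ?_, ?_⟩
  · rw [← integrable_norm_rpow_iff hVm.aestronglyMeasurable
      (by simpa using hq) ENNReal.ofReal_ne_top]
    rw [ENNReal.toReal_ofReal hq.le]
    exact hVp1
  · intro E hE
    obtain ⟨h1, h2, h3⟩ := hs E hE
    refine ⟨?_, h3⟩
    rw [delta_eq E h1]
    have : 0 < 1 / (10 * (N : ℝ) ^ (2 * M)) := by positivity
    linarith
  · have hC : C * ∫ x, ‖V x‖ ^ (γ + 3 / 2) ≤ |C| * |C1| := by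
      have hi0 : 0 ≤ ∫ x, ‖V x‖ ^ (γ + 3 / 2) :=
        integral_nonneg fun x => Real.rpow_nonneg (norm_nonneg _) _
      calc C * ∫ x, ‖V x‖ ^ (γ + 3 / 2) ≤ |C| * ∫ x, ‖V x‖ ^ (γ + 3 / 2) :=
            mul_le_mul_of_nonneg_right (le_abs_self C) hi0
        _ ≤ |C| * |C1| := mul_le_mul_of_nonneg_left (hVp2.trans (le_abs_self C1)) (abs_nonneg C)
    have hterm : ∀ E ∈ s, 1 / 10 * (N : ℝ) ^ (-(1 / 2) : ℝ) ≤ ‖E‖ ^ (-σ) * delta E ^ (γ + σ) := by
      intro E hE
      obtain ⟨h1, h2, -⟩ := hs E hE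
      rw [delta_eq E h1]
      have hpos : 0 < 1 / (10 * (N : ℝ) ^ (2 * M)) := by positivity
      have hEp : 0 < ‖E‖ := by linarith
      rw [← Real.rpow_add hEp]
      have : -σ + (γ + σ) = γ := by ring
      rw [this]
      calc 1 / 10 * (N : ℝ) ^ (-(1 / 2) : ℝ) ≤ (1 / 10) ^ γ * ((N : ℝ) ^ (2 * M)) ^ (-γ) := by
            apply mul_le_mul
            · calc (1 / 10 : ℝ) = (1 / 10) ^ (1 : ℝ) := (Real.rpow_one _).symm
                _ ≤ (1 / 10) ^ γ :=
                  Real.rpow_le_rpow_of_exponent_ge (by norm_num) (by norm_num) hγ1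
            · rw [← Real.rpow_natCast (N : ℝ) (2 * M), ← Real.rpow_mul hNp.le]
              apply Real.rpow_le_rpow_of_exponent_le hNr
              have : ((2 * M : ℕ) : ℝ) * γ ≤ 1 / 2 := by
                push_cast
                calc 2 * (M : ℝ) * γ ≤ 2 * (M + 1) * (1 / (4 * (M + 1))) := by
                      apply mul_le_mul (by linarith) hγ0 hγ.le (by positivity)
                  _ = 1 / 2 := by field_simp; norm_num
              linarith
            · positivity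
            · positivity
        _ = (1 / (10 * (N : ℝ) ^ (2 * M))) ^ γ := by
            rw [Real.rpow_neg (by positivity), ← Real.inv_rpow (by positivity),
              ← Real.mul_rpow (by norm_num) (by positivity)]
            congr 1
            field_simp
        _ ≤ ‖E‖ ^ γ := Real.rpow_le_rpow hpos.le h2 hγ.le
    have hsum : (N : ℝ) * (1 / 10 * (N : ℝ) ^ (-(1 / 2) : ℝ)) ≤
        ∑ E ∈ s, ‖E‖ ^ (-σ) * delta E ^ (γ + σ) := by
      calc (N : ℝ) * (1 / 10 * (N : ℝ) ^ (-(1 / 2) : ℝ))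
          = ∑ E ∈ s, (1 / 10 * (N : ℝ) ^ (-(1 / 2) : ℝ)) := by
            rw [Finset.sum_const, hcard, nsmul_eq_mul]
        _ ≤ _ := Finset.sum_le_sum hterm
    have hN2 : (N : ℝ) * (1 / 10 * (N : ℝ) ^ (-(1 / 2) : ℝ)) = 1 / 10 * Real.sqrt N := by
      rw [Real.sqrt_eq_rpow]
      have : (N : ℝ) * (N : ℝ) ^ (-(1 / 2) : ℝ) = (N : ℝ) ^ (1 / 2 : ℝ) := by
        nth_rewrite 1 [← Real.rpow_one (N : ℝ)]
        rw [← Real.rpow_add hNp]; norm_num
      rw [← this]; ring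
    have hbig : |C| * |C1| < 1 / 10 * Real.sqrt N := by
      have h10 : 10 * (|C| * |C1|) < Real.sqrt N := by
        apply Real.lt_sqrt_of_sq_lt
        calc (10 * (|C| * |C1|)) ^ 2 < N1 := hN1
          _ ≤ N := by exact_mod_cast hNN1
      linarith
    calc C * ∫ x, ‖V x‖ ^ (γ + 3 / 2) ≤ |C| * |C1| := hC
      _ < 1 / 10 * Real.sqrt N := hbig
      _ = _ := hN2.symm
      _ ≤ _ := hsum

end Pool.Agent.Helper61.CE
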